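import Mathlib
import Pool.Agent.P09.LoopCubesU

set_option autoImplicit false

namespace Pool.Agent.Results.MP_5a0037_al.MultiplicationGroupBound

universe u

/-- `Q` with its product and its element `1` is a loop: `1` is a two-sided unit (part of
`MulOneClass`) and all left and right multiplications are bijective. Loops may be infinite. -/
structure IsLoop (Q : Type u) [MulOneClass Q] : Prop where
  left : ∀ a : Q, Function.Bijective (fun x : Q => a * x)
  right : ∀ a : Q, Function.Bijective (fun x : Q => x * a)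

/-- The multiplication group: generated by all maps `x ↦ a x` and `x ↦ x a`. -/
def Mlt (Q : Type u) [Mul Q] : Subgroup (Equiv.Perm Q) :=
  Subgroup.closure {σ | ∃ a : Q, (∀ x, σ x = a * x) ∨ (∀ x, σ x = x * a)}

/-- The polynomials of arity `n` of a loop: operations built from the variables and from constants
by the product and the two divisions (`p \ r` is the `s` with `p s = r`, and `r / p` is the `s`
with `s p = r`). -/
inductive IsPolynomial (Q : Type u) [Mul Q] (n : ℕ) : ((Fin n → Q) → Q) → Prop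
  | var (i : Fin n) : IsPolynomial Q n (fun x => x i)
  | const (q : Q) : IsPolynomial Q n (fun _ => q)
  | mul (p r : (Fin n → Q) → Q) : IsPolynomial Q n p → IsPolynomial Q n r →
      IsPolynomial Q n (fun x => p x * r x)
  | ldiv (p r s : (Fin n → Q) → Q) : IsPolynomial Q n p → IsPolynomial Q n r →
      (∀ x, p x * s x = r x) → IsPolynomial Q n s
  | rdiv (p r s : (Fin n → Q) → Q) : IsPolynomial Q n p → IsPolynomial Q n r →
      (∀ x, s x * p x = r x) → IsPolynomial Q n s

/-- `Q` is `k`-supernilpotent: every absorbing polynomial of arity greater than `k` is constant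
(absorbing: the value is `1` as soon as one of the arguments is `1`). -/
def IsSupernilpotent (Q : Type u) [MulOneClass Q] (k : ℕ) : Prop :=
  ∀ n : ℕ, k < n → ∀ p : (Fin n → Q) → Q, IsPolynomial Q n p →
    (∀ x : Fin n → Q, (∃ i, x i = 1) → p x = 1) → ∃ q : Q, ∀ x, p x = q

/-- closed form of the constants -/
theorem kk_le (c : ℕ) :
    Pool.Agent.P09.LoopCubesU.kk c + 1 ≤ 2 ^ (c * (c + 3) / 2 + 1) := by
  induction c with
  | zero => simp [Pool.Agent.P09.LoopCubesU.kk]
  | succ c ih =>
    have h1 : (c + 1) * (c + 1 + 3) / 2 + 1 = c * (c + 3) / 2 + 1 + (c + 2) := by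
      have : (c + 1) * (c + 1 + 3) = c * (c + 3) + 2 * (c + 2) := by ring
      rw [this, Nat.add_mul_div_left _ _ (by norm_num : 0 < 2)]
      omega
    have h2 : Pool.Agent.P09.LoopCubesU.kk (c + 1) ≤
        2 ^ (c + 2) * Pool.Agent.P09.LoopCubesU.kk c + 2 := by
      simp only [Pool.Agent.P09.LoopCubesU.kk, Pool.Agent.P09.LoopCubesU.Dbd]
      refine max_le ?_ ?_
      · have : 1 ≤ 2 ^ (c + 2) := Nat.one_le_two_pow
        nlinarith
      · have : (2 : ℕ) ^ (c + 2) = 2 * 2 ^ (c + 1) := by ring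
        rw [this]
        nlinarith
    have h3 : 4 ≤ 2 ^ (c + 2) := by
      have : (2 : ℕ) ^ (c + 2) = 4 * 2 ^ c := by ring
      have h4 : 1 ≤ 2 ^ c := Nat.one_le_two_pow
      omega
    rw [h1, pow_add]
    calc Pool.Agent.P09.LoopCubesU.kk (c + 1) + 1
        ≤ 2 ^ (c + 2) * Pool.Agent.P09.LoopCubesU.kk c + 2 + 1 := by omega
      _ ≤ (Pool.Agent.P09.LoopCubesU.kk c + 1) * 2 ^ (c + 2) := by nlinarith
      _ ≤ 2 ^ (c * (c + 3) / 2 + 1) * 2 ^ (c + 2) := Nat.mul_le_mul_right _ ih

/-- Loops whose multiplication group is nilpotent of class `c` are supernilpotent, of class at most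
`2 ^ (c (c + 5) / 2 + 1)`. -/
theorem result (Q : Type u) [MulOneClass Q] (hQ : IsLoop Q) [Group.IsNilpotent (Mlt Q)] :
    IsSupernilpotent Q
      (2 ^ (Group.nilpotencyClass (Mlt Q) * (Group.nilpotencyClass (Mlt Q) + 5) / 2 + 1)) := by
  set c := Group.nilpotencyClass (Mlt Q) with hc
  intro n hn p hp habs
  refine ⟨1, fun x => ?_⟩
  have hD : Pool.Agent.P09.LoopCubesU.Dbd (Pool.Agent.P09.LoopCubesU.kk c) c ≤ n := by
    have h1 := kk_le c
    have h2 : c * (c + 5) / 2 + 1 = c * (c + 3) / 2 + 1 + c := by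
      have : c * (c + 5) = c * (c + 3) + 2 * c := by ring
      rw [this, Nat.add_mul_div_left _ _ (by norm_num : 0 < 2)]
      omega
    rw [h2, pow_add] at hn
    have h3 : 1 ≤ 2 ^ c := Nat.one_le_two_pow
    unfold Pool.Agent.P09.LoopCubesU.Dbd
    nlinarith [Nat.mul_le_mul_right (2 ^ c) h1]
  have hleft : ∀ x : Q, ∃ g : Mlt Q, ∀ y, x * y = g • y := fun x =>
    ⟨⟨Equiv.ofBijective _ (hQ.left x), Subgroup.subset_closure ⟨x, Or.inl fun _ => rfl⟩⟩,
      fun _ => rfl⟩
  have hright : ∀ x : Q, ∃ g : Mlt Q, ∀ y, y * x = g • y := fun x =>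
    ⟨⟨Equiv.ofBijective _ (hQ.right x), Subgroup.subset_closure ⟨x, Or.inr fun _ => rfl⟩⟩,
      fun _ => rfl⟩
  have hs : Pool.Agent.P09.LoopCubesU.Sys (Mlt Q) Q := by
    refine ⟨?_, hleft, hright⟩
    intro x y
    obtain ⟨g, hg⟩ := hleft x
    obtain ⟨g', hg'⟩ := hleft y
    refine ⟨g' * g⁻¹, ?_⟩
    have h1 : g • (1 : Q) = x := by rw [← hg, mul_one]
    have h2 : g' • (1 : Q) = y := by rw [← hg', mul_one]
    rw [← h1, smul_smul, inv_mul_cancel_right, h2]
  have hDel : Pool.Agent.P09.LoopCubesU.Del (Fin n) Q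
      (fun T => p (fun i => if T i = true then x i else 1)) := by
    clear habs
    induction hp with
    | var i => exact Pool.Agent.P09.LoopCubesU.Del.coord i 1 (x i)
    | const q => exact Pool.Agent.P09.LoopCubesU.Del.const q
    | mul p r _ _ h h' => exact Pool.Agent.P09.LoopCubesU.Del.mul _ _ h h'
    | ldiv p r s _ _ he h h' =>
      exact Pool.Agent.P09.LoopCubesU.Del.ldiv _ _ _ h h' (fun T => he _)
    | rdiv p r s _ _ he h h' =>
      exact Pool.Agent.P09.LoopCubesU.Del.rdiv _ _ _ h h' (fun T => he _)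
  have key := Pool.Agent.P09.LoopCubesU.unique_completion c (Mlt Q) Q hs
    Subgroup.upperCentralSeries_nilpotencyClass (Fin n) (by simpa using hD) _ _ hDel
    (Pool.Agent.P09.LoopCubesU.Del.const (1 : Q)) (by
      intro T hT
      obtain ⟨i, hi⟩ : ∃ i, T i ≠ true := by
        by_contra hcon
        push Not at hcon
        exact hT (funext hcon)
      exact habs _ ⟨i, by simp [hi]⟩)
  simpa using key

end Pool.Agent.Results.MP_5a0037_al.MultiplicationGroupBound
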